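import Mathlib
import Pool.Agent.H537R3.Chess.Defs
import Pool.Agent.H537R3.Chess.Final

set_option autoImplicit false

/-!
# The curved chessboard conjecture is false

There is an `8 × 8` grid of circular arcs in `ℝ³` (nine plus nine arcs) such that no composition of
inversions maps the union of its arcs into a set of type (C), (D) or (E).

Proof idea.  Work on the unit sphere of `ℝ⁴ = ℂ²` with the group `G` of order 9 of the rotations
`(z₁, z₂) ↦ (ω^i z₁, ω^j z₂)`.  The grid consists of the orbits `gA`, `gB` of two circles.  It is
enough that `A` meets `gB` for the nine elements `g`; this is a system of 45 quadratic equations in
48 unknowns, an exact real solution of which is produced by a Newton-Kantorovich argument (checked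
with integer arithmetic in the kernel).  Every set of type (C), (D), (E), moved by inversions, lies
in the zero set of a nonzero element of the 55 dimensional space spanned by the products of four
functions `a |x|² + b · x + c`; but the 81 grid points impose 55 independent conditions on this space
(again certified by integer arithmetic).
-/

namespace Pool.Agent.Results.MP_d8c3a3_gt.NotChessboard

open H537R3.Chess

/-- **Theorem (disproof of Q1).**  There are two collections of nine pairwise disjoint circular arcs
in `ℝ³`, every arc of the first meeting every arc of the second (an `8 × 8` grid), such that for every
composition of inversions (a finite list of centres and positive radii, possibly empty) and every set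
`T` of type (C), (D) or (E) there is a point `x` of the union of the arcs at which all the successive
inversions are defined and whose image is not in `T`. -/
theorem result : ∃ A B : Fin 9 → Set E3, IsGrid 8 A B ∧
    ∀ l : List (E3 × ℝ), (∀ s ∈ l, 0 < s.2) → ∀ T : Set E3, (TypeC T ∨ TypeD T ∨ TypeE T) →
      ∃ x ∈ (⋃ i, A i) ∪ ⋃ j, B j, InvDefined l x ∧ applyInv l x ∉ T :=
  H537R3.Chess.main_neg

end Pool.Agent.Results.MP_d8c3a3_gt.NotChessboard
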